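import Mathlib

/-!
# A perturbation of an orthonormal system
-/

set_option autoImplicit false

open scoped InnerProductSpace

namespace Pool.Agent.X196.RW

variable {H ι : Type} [NormedAddCommGroup H] [InnerProductSpace ℂ H]

lemma inner_sums (f g : ι → H) (s : Finset ι) (c : ι → ℂ) :
    inner ℂ (∑ i ∈ s, c i • f i) (∑ i ∈ s, c i • g i) =
      ∑ i ∈ s, ∑ j ∈ s, (starRingEnd ℂ) (c i) * c j * inner ℂ (f i) (g j) := by
  rw [sum_inner]
  refine Finset.sum_congr rfl fun i _ => ?_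
  rw [inner_sum]
  refine Finset.sum_congr rfl fun j _ => ?_
  rw [inner_smul_left, inner_smul_right, mul_assoc]

lemma norm_le_of_perp {z w : H} (h : inner ℂ z w = 0) : ‖z‖ ≤ ‖z + w‖ := by
  have h1 := norm_add_sq_eq_norm_sq_add_norm_sq_of_inner_eq_zero z w h
  nlinarith [norm_nonneg z, norm_nonneg (z + w), norm_nonneg w, mul_self_nonneg ‖w‖]

theorem riesz_bounds (e h q : ι → H) (he : Orthonormal ℂ e)
    (hq : ∀ i j, inner ℂ (h i) (h j) = inner ℂ (q i) (q j))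
    (h1 : ∀ i j, inner ℂ (q i) (e j - q j) = 0) (h2 : ∀ i j, inner ℂ (q i) (h j) = 0)
    (s : Finset ι) (c : ι → ℂ) :
    (1 / 4 : ℝ) * ∑ i ∈ s, ‖c i‖ ^ 2 ≤ ‖∑ i ∈ s, c i • (e i + h i)‖ ^ 2 ∧
      ‖∑ i ∈ s, c i • (e i + h i)‖ ^ 2 ≤ 4 * ∑ i ∈ s, ‖c i‖ ^ 2 := by
  classical
  obtain ⟨x, hx⟩ : ∃ x, x = ∑ i ∈ s, c i • e i := ⟨_, rfl⟩
  obtain ⟨y, hy⟩ : ∃ y, y = ∑ i ∈ s, c i • h i := ⟨_, rfl⟩
  obtain ⟨z, hz⟩ : ∃ z, z = ∑ i ∈ s, c i • q i := ⟨_, rfl⟩
  have hxy : ∑ i ∈ s, c i • (e i + h i) = x + y := by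
    rw [hx, hy, ← Finset.sum_add_distrib]
    exact Finset.sum_congr rfl fun i _ => smul_add _ _ _
  have hxn : ‖x‖ ^ 2 = ∑ i ∈ s, ‖c i‖ ^ 2 := by
    have h3 : inner ℂ x x = ((∑ i ∈ s, ‖c i‖ ^ 2 : ℝ) : ℂ) := by
      rw [hx, he.inner_sum]
      push_cast
      refine Finset.sum_congr rfl fun i _ => ?_
      rw [mul_comm, Complex.mul_conj, Complex.normSq_eq_norm_sq]
      push_cast
      rfl
    rw [inner_self_eq_norm_sq_to_K] at h3
    apply Complex.ofReal_injective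
    rw [← h3]
    push_cast
    rfl
  have hyz : ‖y‖ = ‖z‖ := by
    have h3 : inner ℂ y y = inner ℂ z z := by
      rw [hy, hz, inner_sums, inner_sums]
      refine Finset.sum_congr rfl fun i _ => Finset.sum_congr rfl fun j _ => ?_
      rw [hq]
    rw [inner_self_eq_norm_sq_to_K, inner_self_eq_norm_sq_to_K] at h3
    have h4 : ‖y‖ ^ 2 = ‖z‖ ^ 2 := by exact_mod_cast h3
    exact (sq_eq_sq₀ (norm_nonneg _) (norm_nonneg _)).1 h4
  have hzx : inner ℂ z (x - z) = 0 := by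
    have h3 : x - z = ∑ i ∈ s, c i • (e i - q i) := by
      rw [hx, hz, ← Finset.sum_sub_distrib]
      exact Finset.sum_congr rfl fun i _ => (smul_sub _ _ _).symm
    rw [h3, hz, inner_sums]
    exact Finset.sum_eq_zero fun i _ => Finset.sum_eq_zero fun j _ => by rw [h1, mul_zero]
  have hzy : inner ℂ z y = 0 := by
    rw [hy, hz, inner_sums]
    exact Finset.sum_eq_zero fun i _ => Finset.sum_eq_zero fun j _ => by rw [h2, mul_zero]
  have h5 : ‖z‖ ≤ ‖x‖ := by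
    have := norm_le_of_perp hzx
    rwa [add_sub_cancel] at this
  have h6 : ‖z‖ ≤ ‖x + y‖ := by
    have h7 : inner ℂ z ((x - z) + y) = 0 := by rw [inner_add_right, hzx, hzy, add_zero]
    have := norm_le_of_perp h7
    have h8 : z + (x - z + y) = x + y := by abel
    rwa [h8] at this
  have h7 : ‖x + y‖ ≤ 2 * ‖x‖ := by
    have := norm_add_le x y
    rw [hyz] at this
    linarith
  have h8 : ‖x‖ ≤ 2 * ‖x + y‖ := by
    have h9 : ‖x‖ ≤ ‖x + y‖ + ‖y‖ := by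
      have := norm_sub_le (x + y) y
      rwa [add_sub_cancel_right] at this
    rw [hyz] at h9
    linarith
  rw [hxy, ← hxn]
  constructor
  · nlinarith [norm_nonneg x, norm_nonneg (x + y)]
  · nlinarith [norm_nonneg x, norm_nonneg (x + y)]

end Pool.Agent.X196.RW
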