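import Mathlib

/-!
# Dyadic dilates of windowed exponentials
-/

set_option autoImplicit false

open MeasureTheory Set
open scoped FourierTransform ENNReal

namespace Pool.Agent.X196.RW

/-- the dilations `± 2 ^ n` -/
def AA : Set ℝ := {a | ∃ n : ℤ, |a| = 2 ^ n}

lemma AA_ne {a : ℝ} (ha : a ∈ AA) : a ≠ 0 := by
  rintro rfl
  obtain ⟨n, hn⟩ := ha
  rw [abs_zero] at hn
  have : (0 : ℝ) < 2 ^ n := by positivity
  linarith

lemma AA_two {a : ℝ} (ha : a ∈ AA) : 2 * a ∈ AA := by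
  obtain ⟨n, hn⟩ := ha
  exact ⟨n + 1, by rw [abs_mul, hn, abs_two, zpow_add₀ (by norm_num)]; ring⟩

lemma AA_countable : AA.Countable := by
  have : AA ⊆ ⋃ n : ℤ, ({(2 : ℝ) ^ n, -(2 : ℝ) ^ n} : Set ℝ) := by
    rintro a ⟨n, hn⟩
    rw [mem_iUnion]
    refine ⟨n, ?_⟩
    rcases abs_choice a with h | h
    · left
      rw [← hn, h]
    · right
      rw [mem_singleton_iff, ← hn, h, neg_neg]
  exact (countable_iUnion fun n => (Set.toFinite _).countable).mono this

lemma one_mem_AA : (1 : ℝ) ∈ AA := ⟨0, by simp⟩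

/-- uniqueness of the dyadic scale -/
lemma AA_unique {a b x y : ℝ} (ha : a ∈ AA) (hb : b ∈ AA) (h : a * x = b * y)
    (hx : x ∈ Ioc (1 : ℝ) 2) (hy : y ∈ Ioc (1 : ℝ) 2) : a = b := by
  obtain ⟨n, hn⟩ := ha
  obtain ⟨m, hm⟩ := hb
  obtain ⟨hx1, hx2⟩ := hx
  obtain ⟨hy1, hy2⟩ := hy
  have hx0 : 0 < x := by linarith
  have hy0 : 0 < y := by linarith
  have h1 : |a| * x = |b| * y := by
    have := congrArg abs h
    rwa [abs_mul, abs_mul, abs_of_pos hx0, abs_of_pos hy0] at this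
  rw [hn, hm] at h1
  have p2 : ∀ k : ℤ, (0 : ℝ) < 2 ^ k := fun k => by positivity
  have hnm : n = m := by
    rcases lt_trichotomy n m with h2 | h2 | h2
    · exfalso
      have h3 : (2 : ℝ) ^ (n + 1) ≤ 2 ^ m := zpow_le_zpow_right₀ (by norm_num) (by omega)
      rw [zpow_add₀ (by norm_num), zpow_one] at h3
      nlinarith [p2 n, p2 m]
    · exact h2
    · exfalso
      have h3 : (2 : ℝ) ^ (m + 1) ≤ 2 ^ n := zpow_le_zpow_right₀ (by norm_num) (by omega)
      rw [zpow_add₀ (by norm_num), zpow_one] at h3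
      nlinarith [p2 n, p2 m]
  have h2 : |a| = |b| := by rw [hn, hm, hnm]
  rcases abs_eq_abs.1 h2 with h3 | h3
  · exact h3
  · exfalso
    rw [h3] at h
    have hb0 : b ≠ 0 := AA_ne ⟨m, hm⟩
    have h4 : b * (x + y) = 0 := by linarith
    rcases mul_eq_zero.1 h4 with h5 | h5
    · exact hb0 h5
    · linarith

/-- existence of the dyadic scale -/
lemma AA_exists {t : ℝ} (ht : t ≠ 0) : ∃ a ∈ AA, t / a ∈ Ioc (1 : ℝ) 2 := by
  obtain ⟨n, hn⟩ := exists_mem_Ioc_zpow (abs_pos.2 ht) (one_lt_two)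
  have p2 : (0 : ℝ) < 2 ^ n := by positivity
  obtain ⟨h1, h2⟩ := hn
  rw [zpow_add₀ (by norm_num), zpow_one] at h2
  rcases abs_choice t with h | h
  · refine ⟨2 ^ n, ⟨n, abs_of_pos p2⟩, ?_⟩
    rw [h] at h1 h2
    constructor
    · rw [lt_div_iff₀ p2]
      linarith
    · rw [div_le_iff₀ p2]
      linarith
  · refine ⟨-2 ^ n, ⟨n, by rw [abs_neg]; exact abs_of_pos p2⟩, ?_⟩
    rw [h] at h1 h2
    have h3 : t / -2 ^ n = (-t) / 2 ^ n := by rw [div_neg, neg_div]
    rw [h3]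
    constructor
    · rw [lt_div_iff₀ p2]
      linarith
    · rw [div_le_iff₀ p2]
      linarith

/-- the dilated windowed exponentials -/
noncomputable def DD (I : Set ℝ) (k : ℤ) (a : ℝ) (t : ℝ) : ℂ :=
  ((√|a|)⁻¹ : ℝ) * (I.indicator (fun s : ℝ => Complex.exp (-(2 * Real.pi * k * s * Complex.I))) (t / a))

lemma DD_norm_le (I : Set ℝ) (k : ℤ) (a t : ℝ) : ‖DD I k a t‖ ≤ (√|a|)⁻¹ := by
  unfold DD
  rw [norm_mul, Complex.norm_real, Real.norm_eq_abs, abs_of_nonneg (by positivity)]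
  have h1 : ‖I.indicator (fun s : ℝ => Complex.exp (-(2 * Real.pi * k * s * Complex.I))) (t / a)‖ ≤ 1 := by
    by_cases h : t / a ∈ I
    · rw [indicator_of_mem h]
      have : -(2 * (Real.pi : ℂ) * k * ((t / a : ℝ) : ℂ) * Complex.I) =
          ((-(2 * Real.pi * k * (t / a)) : ℝ) : ℂ) * Complex.I := by
        push_cast
        ring
      rw [this, Complex.norm_exp_ofReal_mul_I]
    · rw [indicator_of_notMem h]
      simp
  calc (√|a|)⁻¹ * _ ≤ (√|a|)⁻¹ * 1 := by gcongr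
    _ = _ := mul_one _

lemma DD_measurable {I : Set ℝ} (hI : MeasurableSet I) (k : ℤ) (a : ℝ) : Measurable (DD I k a) := by
  unfold DD
  apply Measurable.const_mul
  have h1 : Measurable (I.indicator (fun s : ℝ => Complex.exp (-(2 * Real.pi * k * s * Complex.I)))) := by
    apply Measurable.indicator _ hI
    fun_prop
  exact h1.comp (measurable_id.div_const a)

lemma DD_eq_zero {I : Set ℝ} {k : ℤ} {a t : ℝ} (h : t / a ∉ I) : DD I k a t = 0 := by
  unfold DD
  rw [indicator_of_notMem h, mul_zero]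

/-- the dilated sets have finite measure -/
lemma dil_finite {I : Set ℝ} (hI : I ⊆ Icc 0 4) {a : ℝ} (ha : a ≠ 0) :
    {t : ℝ | t / a ∈ I} ⊆ Icc (-(4 * |a|)) (4 * |a|) := by
  intro t ht
  obtain ⟨h1, h2⟩ := hI ht
  have h3 : |t / a| ≤ 4 := abs_le.2 ⟨by linarith, h2⟩
  rw [abs_div, div_le_iff₀ (abs_pos.2 ha)] at h3
  exact abs_le.1 h3

lemma DD_memLp {I : Set ℝ} (hI : MeasurableSet I) (hI4 : I ⊆ Icc 0 4) (k : ℤ) {a : ℝ} (ha : a ≠ 0)
    (p : ℝ≥0∞) : MemLp (DD I k a) p (volume : Measure ℝ) := by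
  have h1 : MemLp (indicator (Icc (-(4 * |a|)) (4 * |a|)) (fun _ : ℝ => ((√|a|)⁻¹ : ℝ))) p
      (volume : Measure ℝ) := by
    apply memLp_indicator_const
    · exact measurableSet_Icc
    · right
      rw [Real.volume_Icc]
      exact ENNReal.ofReal_ne_top
  refine h1.mono (DD_measurable hI k a).aestronglyMeasurable (Filter.Eventually.of_forall fun t => ?_)
  by_cases ht : t / a ∈ I
  · rw [indicator_of_mem (dil_finite hI4 ha ht), Real.norm_eq_abs, abs_of_nonneg (by positivity)]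
    exact DD_norm_le I k a t
  · rw [DD_eq_zero ht, norm_zero]
    exact norm_nonneg _

lemma DD_integrable {I : Set ℝ} (hI : MeasurableSet I) (hI4 : I ⊆ Icc 0 4) (k : ℤ) {a : ℝ} (ha : a ≠ 0) :
    Integrable (DD I k a) := memLp_one_iff_integrable.1 (DD_memLp hI hI4 k ha 1)

end Pool.Agent.X196.RW
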