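import Pool.Agent.X196.RW.Gram

/-!
# Completeness of the system
-/

set_option autoImplicit false

open MeasureTheory Set
open scoped FourierTransform ENNReal ComplexConjugate

namespace Pool.Agent.X196.RW

lemma qmp_mul {c : ℝ} (hc : c ≠ 0) : Measure.QuasiMeasurePreserving (fun t : ℝ => c * t) := by
  refine ⟨measurable_const_mul c, ?_⟩
  rw [Real.map_volume_mul_left hc]
  exact Measure.smul_absolutelyContinuous

lemma qmp_add (c : ℝ) : Measure.QuasiMeasurePreserving (fun t : ℝ => t + c) :=
  (measurePreserving_add_right (volume : Measure ℝ) c).quasiMeasurePreserving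

/-- uniqueness for Fourier coefficients on `(1, 2]` -/
lemma fourier_unique (G : ℝ → ℂ) (hG : MemLp G 2 (volume.restrict (Ioc (1 : ℝ) 2)))
    (h : ∀ k : ℤ, ∫ t in Ioc (1 : ℝ) 2, conj (ex k t) * G t = 0) :
    ∀ᵐ t : ℝ, t ∈ Ioc (1 : ℝ) 2 → G t = 0 := by
  have h1 := hasSum_sq_fourierCoeffOn (a := 1) (b := 2) (by norm_num) hG
  have h2 : ∀ n, fourierCoeffOn (a := 1) (b := 2) (by norm_num) G n = 0 := by
    intro n
    rw [fourierCoeffOn_eq_integral, intervalIntegral.integral_of_le (by norm_num)]
    have h3 := h (-n)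
    have h4 : ∫ t in Ioc (1 : ℝ) 2, (fourier (-n) : C(AddCircle ((2 : ℝ) - 1), ℂ)) (t : AddCircle ((2 : ℝ) - 1)) • G t =
        ∫ t in Ioc (1 : ℝ) 2, conj (ex (-n) t) * G t := by
      congr 1
      funext t
      rw [smul_eq_mul]
      congr 1
      rw [fourier_coe_apply]
      unfold ex
      rw [← Complex.exp_conj]
      congr 1
      simp only [map_neg, map_mul, Complex.conj_I, Complex.conj_ofReal, map_ofNat, map_intCast]
      push_cast
      ring
    rw [h4, h3, smul_zero]
  have h3 : ∫ t in Ioc (1 : ℝ) 2, ‖G t‖ ^ 2 = 0 := by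
    have h4 : HasSum (fun i : ℤ => (0 : ℝ)) (((2 : ℝ) - 1)⁻¹ • ∫ x in (1 : ℝ)..2, ‖G x‖ ^ 2) := by
      convert h1 using 1
      funext i
      rw [h2]
      simp
    have h5 := h4.unique hasSum_zero
    rw [intervalIntegral.integral_of_le (by norm_num)] at h5
    have h6 : ((2 : ℝ) - 1)⁻¹ = 1 := by norm_num
    rw [h6, one_smul] at h5
    exact h5
  rw [integral_eq_zero_iff_of_nonneg (fun _ => by positivity) ((memLp_two_iff_integrable_sq_norm hG.1).1 hG)] at h3
  have h4 := (ae_restrict_iff' measurableSet_Ioc).1 h3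
  filter_upwards [h4] with t ht ht'
  have h5 : ‖G t‖ ^ 2 = 0 := ht ht'
  have h6 : ‖G t‖ = 0 := by
    exact pow_eq_zero_iff (two_ne_zero) |>.1 h5
  exact norm_eq_zero.1 h6

lemma memLp_comp_mul {g : ℝ → ℂ} (hg : MemLp g 2 (volume : Measure ℝ)) {c : ℝ} (hc : c ≠ 0) :
    MemLp (fun t => g (c * t)) 2 (volume : Measure ℝ) := by
  have h1 : MemLp g 2 (Measure.map (fun t : ℝ => c * t) volume) := by
    rw [Real.map_volume_mul_left hc]
    exact hg.smul_measure ENNReal.ofReal_ne_top
  exact h1.comp_of_map (measurable_const_mul c).aemeasurable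

theorem complete (g : Lp ℂ 2 (volume : Measure ℝ)) (h : ∀ i, inner ℂ (LL WO i) g = 0) : g = 0 := by
  have hg : MemLp (g : ℝ → ℂ) 2 (volume : Measure ℝ) := Lp.memLp g
  -- step a
  have ha : ∀ a ∈ AA, ∀ᵐ t : ℝ, t ∈ Ioc (1 : ℝ) 2 →
      g (a * t) + W2.set.indicator (fun s => g (a * (s + 1))) t = 0 := by
    intro a haA
    have ha0 : a ≠ 0 := AA_ne haA
    have ha' : 0 < |a| := abs_pos.2 ha0
    have hm1 : MemLp (fun t => g (a * t)) 2 (volume : Measure ℝ) := memLp_comp_mul hg ha0
    have hm2 : MemLp (fun t => g (a * (t + 1))) 2 (volume : Measure ℝ) :=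
      hm1.comp_measurePreserving (measurePreserving_add_right (volume : Measure ℝ) 1)
    apply fourier_unique
    · exact (hm1.add (hm2.indicator W2.meas)).mono_measure Measure.restrict_le_self
    · intro k
      have h1 := h (k, ⟨a, haA⟩)
      rw [L2.inner_def] at h1
      have h2 : ∫ t, g t * conj (DD WO.set k a t) = 0 := by
        rw [← h1]
        apply integral_congr_ae
        filter_upwards [LL_coe WO (k, ⟨a, haA⟩)] with t ht
        rw [ht]
        rfl
      have h3 := Measure.integral_comp_mul_left (fun t => g t * conj (DD WO.set k a t)) a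
      rw [h2, smul_zero] at h3
      have h4 : (fun t : ℝ => g (a * t) * conj (DD WO.set k a (a * t))) = fun t : ℝ =>
          (((√|a|)⁻¹ : ℝ) : ℂ) * (WO.set.indicator (fun s => conj (ex k s) * g (a * s)) t) := by
        funext t
        rw [DD_eq, mul_div_cancel_left₀ _ ha0, map_mul, Complex.conj_ofReal]
        by_cases ht : t ∈ WO.set
        · rw [indicator_of_mem ht, indicator_of_mem ht]
          ring
        · rw [indicator_of_notMem ht, indicator_of_notMem ht]
          simp
      have h5 : ∫ t : ℝ, g (a * t) * conj (DD WO.set k a (a * t)) = 0 := h3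
      rw [h4, integral_const_mul] at h5
      have h6 : ∫ t, WO.set.indicator (fun s => conj (ex k s) * g (a * s)) t = 0 := by
        rcases mul_eq_zero.1 h5 with h7 | h7
        · exfalso
          rw [Complex.ofReal_eq_zero, inv_eq_zero, Real.sqrt_eq_zero'] at h7
          linarith
        · exact h7
      have hexc : Continuous (ex k) := by
        unfold ex
        fun_prop
      have hexn : ∀ s, ‖conj (ex k s)‖ ≤ 1 := by
        intro s
        rw [RCLike.norm_conj]
        unfold ex
        have : -(2 * (Real.pi : ℂ) * k * s * Complex.I) =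
            ((-(2 * Real.pi * k * s) : ℝ) : ℂ) * Complex.I := by
          push_cast
          ring
        rw [this, Complex.norm_exp_ofReal_mul_I]
      have hint : ∀ I : Win, IntegrableOn (fun s => conj (ex k s) * g (a * s)) I.set := by
        intro I
        have hfin : volume I.set ≠ ⊤ := by
          refine ne_top_of_le_ne_top ?_ (measure_mono I.sub)
          rw [Real.volume_Icc]
          exact ENNReal.ofReal_ne_top
        have hfi : IsFiniteMeasure (volume.restrict I.set) := ⟨by
          rw [Measure.restrict_apply_univ]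
          exact lt_top_iff_ne_top.2 hfin⟩
        have h8 : Integrable (fun t => g (a * t)) (volume.restrict I.set) :=
          (hm1.mono_measure Measure.restrict_le_self).integrable (by norm_num)
        exact h8.bdd_mul (c := 1) (by fun_prop) (Filter.Eventually.of_forall hexn)
      rw [integral_indicator WO.meas] at h6
      have h7 : WO.set = W0.set ∪ W1.set := rfl
      have hdisj : Disjoint W0.set W1.set := by
        rw [Set.disjoint_left]
        intro x hx hx'
        have h5 : x ≤ 2 := hx.2
        have h6 : 5 / 2 < x := hx'.1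
        linarith
      rw [h7, setIntegral_union hdisj W1.meas (hint W0) (hint W1)] at h6
      -- shift
      have h8 : ∫ s in W1.set, conj (ex k s) * g (a * s) =
          ∫ s in Ioc (1 : ℝ) 2, conj (ex k s) * W2.set.indicator (fun s => g (a * (s + 1))) s := by
        rw [← integral_indicator W1.meas, ← integral_indicator measurableSet_Ioc,
          ← integral_add_right_eq_self _ (1 : ℝ)]
        congr 1
        funext s
        by_cases hs : s ∈ W2.set
        · have hs' : s + 1 ∈ W1.set := ⟨by linarith [hs.1], by linarith [hs.2]⟩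
          have hs0 : s ∈ Ioc (1 : ℝ) 2 := ⟨by linarith [hs.1], hs.2⟩
          rw [indicator_of_mem hs', indicator_of_mem hs0, indicator_of_mem hs, ex_add_one]
        · have hs' : s + 1 ∉ W1.set := by
            intro h
            exact hs ⟨by linarith [h.1], by linarith [h.2]⟩
          rw [indicator_of_notMem hs', Set.indicator_apply, indicator_of_notMem hs, mul_zero,
            ite_self]
      rw [h8] at h6
      rw [← h6]
      show ∫ t in Ioc (1 : ℝ) 2, conj (ex k t) * (g (a * t) + W2.set.indicator (fun s => g (a * (s + 1))) t) = _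
      have h9 : IntegrableOn (fun s => conj (ex k s) * W2.set.indicator (fun s => g (a * (s + 1))) s)
          (Ioc (1 : ℝ) 2) := by
        have hfi : IsFiniteMeasure (volume.restrict (Ioc (1 : ℝ) 2)) := inferInstance
        have h8 : Integrable (W2.set.indicator (fun t => g (a * (t + 1)))) (volume.restrict (Ioc (1 : ℝ) 2)) :=
          ((hm2.indicator W2.meas).mono_measure Measure.restrict_le_self).integrable (by norm_num)
        exact h8.bdd_mul (c := 1) (by fun_prop) (Filter.Eventually.of_forall hexn)
      have h10 : IntegrableOn (fun s => conj (ex k s) * g (a * s)) (Ioc (1 : ℝ) 2) := hint W0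
      have h11 := integral_add h10 h9
      refine Eq.trans ?_ h11
      congr 1
      funext t
      exact mul_add _ _ _
  -- step b
  have hb : ∀ a ∈ AA, ∀ᵐ t : ℝ, t ∈ Ioc (1 : ℝ) (3 / 2) → g (a * t) = 0 := by
    intro a haA
    filter_upwards [ha a haA] with t ht ht'
    have h1 := ht ⟨ht'.1, by linarith [ht'.2]⟩
    rw [indicator_of_notMem, add_zero] at h1
    · exact h1
    · intro h2
      have h3 : 3 / 2 < t := h2.1
      linarith [ht'.2]
  -- step c
  have hc : ∀ a ∈ AA, ∀ᵐ t : ℝ, t ∈ Ioc (1 : ℝ) 2 → g (a * t) = 0 := by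
    intro a haA
    have h1 := (qmp_mul (c := 1 / 2) (by norm_num)).ae (hb (2 * a) (AA_two haA))
    have h2 := (qmp_add 1).ae h1
    filter_upwards [ha a haA, h2, hb a haA] with t ht h3 h4 ht'
    by_cases h5 : t ≤ 3 / 2
    · exact h4 ⟨ht'.1, h5⟩
    · have h6 := ht ht'
      rw [indicator_of_mem (show t ∈ W2.set from ⟨not_le.1 h5, ht'.2⟩)] at h6
      have h7 := h3 ⟨by linarith [ht'.1], by linarith [ht'.2]⟩
      have h8 : 2 * a * (1 / 2 * (t + 1)) = a * (t + 1) := by ring
      rw [h8] at h7
      rw [h7, add_zero] at h6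
      exact h6
  -- conclusion
  have hd : ∀ᵐ t : ℝ, ∀ a ∈ AA, t / a ∈ Ioc (1 : ℝ) 2 → g t = 0 := by
    rw [ae_ball_iff AA_countable]
    intro a haA
    have ha0 : a ≠ 0 := AA_ne haA
    have h1 := (qmp_mul (inv_ne_zero ha0)).ae (hc a haA)
    filter_upwards [h1] with t ht ht'
    have h2 : a⁻¹ * t = t / a := by rw [div_eq_inv_mul]
    rw [h2] at ht
    have h3 := ht ht'
    rwa [mul_div_cancel₀ _ ha0] at h3
  apply Lp.ext
  have h0 : ∀ᵐ t : ℝ, t ≠ 0 := by
    rw [ae_iff]
    simp
  filter_upwards [hd, h0, Lp.coeFn_zero ℂ 2 (volume : Measure ℝ)] with t h1 h2 h3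
  obtain ⟨a, haA, ht⟩ := AA_exists h2
  rw [h1 a haA ht, h3]
  rfl

end Pool.Agent.X196.RW
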