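import Pool.Agent.X196.RW.Comp

/-!
# The Fourier transform of the system
-/

set_option autoImplicit false

open MeasureTheory Set
open scoped FourierTransform ENNReal ComplexConjugate

namespace Pool.Agent.X196.RW

/-- the `L²` inverse Fourier transform of an `L¹ ∩ L²` function is given by the integral (proof
from the starting library) -/
theorem fourierInv_toLp {g : ℝ → ℂ} (hg1 : Integrable g) (hg2 : MemLp g 2 (volume : Measure ℝ)) :
    ((𝓕⁻ (hg2.toLp g) : Lp ℂ 2 (volume : Measure ℝ)) : ℝ → ℂ) =ᵐ[volume] 𝓕⁻ g := by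
  have hcont : Continuous (𝓕⁻ g) := by
    refine VectorFourier.fourierIntegral_continuous Real.continuous_fourierChar ?_ hg1
    exact (continuous_inner (𝕜 := ℝ) (E := ℝ)).neg
  refine ae_eq_of_integral_contDiff_smul_eq ?_ hcont.locallyIntegrable ?_
  · exact (Lp.memLp _).locallyIntegrable (by norm_num)
  · intro φ hφ1 hφ2
    have hg₁ : HasCompactSupport (Complex.ofRealCLM ∘ φ) := hφ2.comp_left rfl
    have hg₂ : ContDiff ℝ (⊤ : ℕ∞) (Complex.ofRealCLM ∘ φ) := by fun_prop
    set s : SchwartzMap ℝ ℂ := hg₁.toSchwartzMap hg₂ with hs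
    have h1 := Lp.toTemperedDistribution_apply (𝓕⁻ (hg2.toLp g) : Lp ℂ 2 (volume : Measure ℝ)) s
    rw [← Lp.fourierInv_toTemperedDistribution_eq, TemperedDistribution.fourierInv_apply, Lp.toTemperedDistribution_apply] at h1
    have h2 : ∫ x, φ x • (𝓕⁻ (hg2.toLp g) : Lp ℂ 2 (volume : Measure ℝ)) x = ∫ x, s x • (𝓕⁻ (hg2.toLp g) : Lp ℂ 2 (volume : Measure ℝ)) x := rfl
    rw [h2, ← h1]
    have h3 : ∫ x, (𝓕⁻ s : SchwartzMap ℝ ℂ) x • (hg2.toLp g : Lp ℂ 2 (volume : Measure ℝ)) x = ∫ x, (𝓕⁻ s : SchwartzMap ℝ ℂ) x • g x := by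
      apply integral_congr_ae
      filter_upwards [hg2.coeFn_toLp] with x hx
      rw [hx]
    rw [h3]
    have h4 : ∫ x, (𝓕⁻ s : SchwartzMap ℝ ℂ) x • g x = ∫ x, s x • (𝓕⁻ g) x := by
      have h5 := VectorFourier.integral_fourierIntegral_smul_eq_flip (e := Real.fourierChar) (μ := (volume : Measure ℝ)) (ν := (volume : Measure ℝ))
        (L := -innerₗ ℝ) (f := s) (g := g) Real.continuous_fourierChar (by exact (continuous_inner (𝕜 := ℝ) (E := ℝ)).neg) s.integrable hg1
      have h6 : (-innerₗ ℝ : ℝ →ₗ[ℝ] ℝ →ₗ[ℝ] ℝ).flip = -innerₗ ℝ := by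
        ext
        simp
      rw [h6] at h5
      rw [SchwartzMap.fourierInv_coe]
      exact h5
    rw [h4]
    rfl

theorem fourierInv_DD (I : Win) (k : ℤ) {a : ℝ} (ha : a ≠ 0) (x : ℝ) :
    𝓕⁻ (DD I.set k a) x = (√|a| : ℝ) * ∫ s in I.set, Complex.exp (2 * Real.pi * Complex.I * (a * x - k) * s) := by
  have ha' : 0 < |a| := abs_pos.2 ha
  rw [Real.fourierInv_eq']
  have h1 : (fun v : ℝ => Complex.exp (((2 * Real.pi * inner ℝ v x : ℝ) : ℂ) * Complex.I) • DD I.set k a v) =
      fun v : ℝ => (fun s : ℝ => (((√|a|)⁻¹ : ℝ) : ℂ) * (Complex.exp (2 * Real.pi * Complex.I * (a * x) * s) *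
        I.set.indicator (ex k) s)) (v / a) := by
    funext v
    rw [DD_eq, smul_eq_mul]
    have h2 : ((2 * Real.pi * inner ℝ v x : ℝ) : ℂ) * Complex.I =
        2 * Real.pi * Complex.I * (a * x) * ((v / a : ℝ) : ℂ) := by
      have h3 : inner ℝ v x = x * v := by
        rw [RCLike.inner_apply]
        simp
      rw [h3]
      have h4 : v = a * (v / a) := (mul_div_cancel₀ _ ha).symm
      conv_lhs => rw [h4]
      push_cast
      ring
    rw [h2]
    ring
  have h5 := Measure.integral_comp_div (fun s : ℝ => (((√|a|)⁻¹ : ℝ) : ℂ) *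
    (Complex.exp (2 * Real.pi * Complex.I * (a * x) * s) * I.set.indicator (ex k) s)) a
  rw [h1, h5, integral_const_mul]
  have h2 : (fun s : ℝ => Complex.exp (2 * Real.pi * Complex.I * (a * x) * s) * I.set.indicator (ex k) s) =
      I.set.indicator (fun s : ℝ => Complex.exp (2 * Real.pi * Complex.I * (a * x - k) * s)) := by
    funext s
    by_cases hs : s ∈ I.set
    · rw [indicator_of_mem hs, indicator_of_mem hs]
      unfold ex
      rw [← Complex.exp_add]
      congr 1
      ring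
    · rw [indicator_of_notMem hs, indicator_of_notMem hs, mul_zero]
  rw [h2, integral_indicator I.meas, ← Complex.coe_smul, smul_eq_mul, ← mul_assoc,
    ← Complex.ofReal_mul]
  congr 2
  have h3 : |a| = √|a| * √|a| := (Real.mul_self_sqrt ha'.le).symm
  have h4 : √|a| ≠ 0 := (Real.sqrt_pos.2 ha').ne'
  nth_rewrite 1 [h3]
  rw [mul_assoc, mul_inv_cancel₀ h4, mul_one]

end Pool.Agent.X196.RW
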