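import Pool.Agent.X196.RW.Base
import Pool.Agent.X196.RW.Abs

/-!
# Gram matrices of dilated windowed exponentials
-/

set_option autoImplicit false

open MeasureTheory Set
open scoped FourierTransform ENNReal ComplexConjugate

namespace Pool.Agent.X196.RW

/-- the exponentials -/
noncomputable def ex (k : ℤ) (s : ℝ) : ℂ := Complex.exp (-(2 * Real.pi * k * s * Complex.I))

lemma ex_add_one (k : ℤ) (s : ℝ) : ex k (s + 1) = ex k s := by
  unfold ex
  rw [Complex.exp_eq_exp_iff_exists_int]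
  refine ⟨-k, ?_⟩
  push_cast
  ring

lemma ex_mul_conj (k l : ℤ) (s : ℝ) :
    ex l s * conj (ex k s) = Complex.exp (2 * Real.pi * Complex.I * (k - l) * s) := by
  unfold ex
  rw [← Complex.exp_conj, ← Complex.exp_add]
  congr 1
  simp only [map_neg, map_mul, Complex.conj_I, Complex.conj_ofReal, map_ofNat, map_intCast]
  ring

lemma DD_eq (I : Set ℝ) (k : ℤ) (a t : ℝ) :
    DD I k a t = ((√|a|)⁻¹ : ℝ) * I.indicator (ex k) (t / a) := rfl

/-- a window: a measurable subset of `[0, 4]` -/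
structure Win where
  /-- the set -/
  set : Set ℝ
  meas : MeasurableSet set
  sub : set ⊆ Icc 0 4

/-- the dilated windowed exponentials as elements of `L²` -/
noncomputable def LL (I : Win) (i : ℤ × AA) : Lp ℂ 2 (volume : Measure ℝ) :=
  (DD_memLp I.meas I.sub i.1 (AA_ne i.2.2) 2).toLp (DD I.set i.1 i.2)

lemma LL_coe (I : Win) (i : ℤ × AA) : LL I i =ᵐ[volume] DD I.set i.1 i.2 := MemLp.coeFn_toLp _

lemma inner_LL (I J : Win) (i j : ℤ × AA) :
    inner ℂ (LL I i) (LL J j) = ∫ t, DD J.set j.1 j.2 t * conj (DD I.set i.1 i.2 t) := by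
  rw [L2.inner_def]
  apply integral_congr_ae
  filter_upwards [LL_coe I i, LL_coe J j] with t h1 h2
  rw [h1, h2]
  rfl

lemma inner_LL_zero (I J : Win) (i j : ℤ × AA)
    (h : ∀ t : ℝ, t / (i.2 : ℝ) ∈ I.set → t / (j.2 : ℝ) ∈ J.set → False) :
    inner ℂ (LL I i) (LL J j) = 0 := by
  rw [inner_LL]
  have : (fun t => DD J.set j.1 j.2 t * conj (DD I.set i.1 i.2 t)) = fun _ => 0 := by
    funext t
    by_cases h1 : t / (i.2 : ℝ) ∈ I.set
    · rw [DD_eq_zero (fun h2 => h t h1 h2), zero_mul]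
    · rw [DD_eq_zero h1, map_zero, mul_zero]
  rw [this, integral_zero]

lemma inner_LL_same (I J : Win) (k l : ℤ) (a : AA) :
    inner ℂ (LL I (k, a)) (LL J (l, a)) =
      ∫ s, J.set.indicator (ex l) s * conj (I.set.indicator (ex k) s) := by
  rw [inner_LL]
  have ha : (a : ℝ) ≠ 0 := AA_ne a.2
  have ha' : 0 < |(a : ℝ)| := abs_pos.2 ha
  have h1 : (fun t => DD J.set l a t * conj (DD I.set k a t)) = fun t : ℝ =>
      ((|(a : ℝ)|⁻¹ : ℝ) : ℂ) * ((fun s => J.set.indicator (ex l) s *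
        conj (I.set.indicator (ex k) s)) (t / a)) := by
    funext t
    rw [DD_eq, DD_eq, map_mul, Complex.conj_ofReal]
    have h2 : (|(a : ℝ)|⁻¹ : ℝ) = (√|(a : ℝ)|)⁻¹ * (√|(a : ℝ)|)⁻¹ := by
      rw [← mul_inv, Real.mul_self_sqrt ha'.le]
    rw [h2]
    push_cast
    ring
  show ∫ t, DD J.set l a t * conj (DD I.set k a t) = _
  rw [h1, integral_const_mul]
  have h3 := Measure.integral_comp_div (fun s => J.set.indicator (ex l) s *
        conj (I.set.indicator (ex k) s)) (a : ℝ)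
  rw [h3, ← Complex.coe_smul, smul_eq_mul,
    ← mul_assoc, ← Complex.ofReal_mul, inv_mul_cancel₀ ha'.ne', Complex.ofReal_one, one_mul]

/-- the window of the orthonormal basis -/
def W0 : Win := ⟨Ioc 1 2, measurableSet_Ioc, fun x hx => ⟨by linarith [hx.1], by linarith [hx.2]⟩⟩

/-- the additional window -/
def W1 : Win := ⟨Ioc (5 / 2) 3, measurableSet_Ioc,
  fun x hx => ⟨by linarith [hx.1], by linarith [hx.2]⟩⟩

/-- the translated additional window -/
def W2 : Win := ⟨Ioc (3 / 2) 2, measurableSet_Ioc,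
  fun x hx => ⟨by linarith [hx.1], by linarith [hx.2]⟩⟩

/-- the complementary window -/
def W3 : Win := ⟨Ioc 1 (3 / 2), measurableSet_Ioc,
  fun x hx => ⟨by linarith [hx.1], by linarith [hx.2]⟩⟩

/-- the wavelet set -/
def WO : Win := ⟨Ioc 1 2 ∪ Ioc (5 / 2) 3, measurableSet_Ioc.union measurableSet_Ioc, by
  rintro x (hx | hx)
  · exact ⟨by linarith [hx.1], by linarith [hx.2]⟩
  · exact ⟨by linarith [hx.1], by linarith [hx.2]⟩⟩

lemma LL_WO (i : ℤ × AA) : LL WO i = LL W0 i + LL W1 i := by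
  apply Lp.ext
  filter_upwards [LL_coe WO i, LL_coe W0 i, LL_coe W1 i, Lp.coeFn_add (LL W0 i) (LL W1 i)]
    with t h1 h2 h3 h4
  rw [h1, h4, Pi.add_apply, h2, h3, DD_eq, DD_eq, DD_eq, ← mul_add]
  congr 1
  have : WO.set = W0.set ∪ W1.set := rfl
  rw [this, indicator_union_of_disjoint]
  rw [Set.disjoint_left]
  intro x hx hx'
  have h5 : x ≤ 2 := hx.2
  have h6 : 5 / 2 < x := hx'.1
  linarith

lemma LL_W0 (i : ℤ × AA) : LL W0 i - LL W2 i = LL W3 i := by
  rw [sub_eq_iff_eq_add]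
  apply Lp.ext
  filter_upwards [LL_coe W0 i, LL_coe W3 i, LL_coe W2 i, Lp.coeFn_add (LL W3 i) (LL W2 i)]
    with t h1 h2 h3 h4
  rw [h1, h4, Pi.add_apply, h2, h3, DD_eq, DD_eq, DD_eq, ← mul_add]
  congr 1
  have : W0.set = W3.set ∪ W2.set := by
    ext x
    constructor
    · intro hx
      by_cases h : x ≤ 3 / 2
      · exact Or.inl ⟨hx.1, h⟩
      · exact Or.inr ⟨not_le.1 h, hx.2⟩
    · rintro (hx | hx)
      · exact ⟨hx.1, by linarith [hx.2]⟩
      · exact ⟨by linarith [hx.1], hx.2⟩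
  rw [this, indicator_union_of_disjoint]
  rw [Set.disjoint_left]
  intro x hx hx'
  have h5 : x ≤ 3 / 2 := hx.2
  have h6 : 3 / 2 < x := hx'.1
  linarith

lemma mul_div_eq {a b t : ℝ} (ha : a ≠ 0) (hb : b ≠ 0) : a * (t / a) = b * (t / b) := by
  rw [mul_div_cancel₀ _ ha, mul_div_cancel₀ _ hb]

lemma ortho : Orthonormal ℂ (LL W0) := by
  classical
  rw [orthonormal_iff_ite]
  rintro ⟨k, a⟩ ⟨l, b⟩
  by_cases hab : a = b
  · subst hab
    rw [inner_LL_same]
    have h1 : (fun s => W0.set.indicator (ex l) s * conj (W0.set.indicator (ex k) s)) =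
        W0.set.indicator (fun s : ℝ => Complex.exp (2 * Real.pi * Complex.I * (k - l) * s)) := by
      funext s
      by_cases hs : s ∈ W0.set
      · rw [indicator_of_mem hs, indicator_of_mem hs, indicator_of_mem hs, ex_mul_conj]
      · rw [indicator_of_notMem hs, indicator_of_notMem hs, indicator_of_notMem hs, zero_mul]
    rw [h1, integral_indicator W0.meas]
    show ∫ s in Ioc (1 : ℝ) 2, Complex.exp (2 * Real.pi * Complex.I * (k - l) * s) = _
    rw [← intervalIntegral.integral_of_le (by norm_num)]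
    by_cases hkl : k = l
    · subst hkl
      simp
      norm_num
    · rw [if_neg (fun h => hkl (Prod.mk.inj h).1)]
      have hne : (2 * Real.pi * Complex.I * (k - l) : ℂ) ≠ 0 := by
        have h2 : (k : ℂ) - l ≠ 0 := by
          rw [sub_ne_zero]
          exact_mod_cast hkl
        have h3 : (Real.pi : ℂ) ≠ 0 := by exact_mod_cast Real.pi_ne_zero
        simp [h2, h3]
      rw [integral_exp_mul_complex hne]
      have h3 : Complex.exp (2 * Real.pi * Complex.I * (k - l) * (2 : ℝ)) = 1 := by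
        rw [Complex.exp_eq_one_iff]
        refine ⟨2 * (k - l), ?_⟩
        push_cast
        ring
      have h4 : Complex.exp (2 * Real.pi * Complex.I * (k - l) * (1 : ℝ)) = 1 := by
        rw [Complex.exp_eq_one_iff]
        refine ⟨(k - l), ?_⟩
        push_cast
        ring
      rw [h3, h4, sub_self, zero_div]
  · rw [if_neg (fun h => hab (Prod.mk.inj h).2)]
    apply inner_LL_zero
    intro t h1 h2
    apply hab
    apply Subtype.ext
    exact AA_unique a.2 b.2 (mul_div_eq (AA_ne a.2) (AA_ne b.2)) h1 h2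

lemma gram_eq (i j : ℤ × AA) : inner ℂ (LL W1 i) (LL W1 j) = inner ℂ (LL W2 i) (LL W2 j) := by
  obtain ⟨k, a⟩ := i
  obtain ⟨l, b⟩ := j
  by_cases hab : a = b
  · subst hab
    rw [inner_LL_same, inner_LL_same, ← integral_add_right_eq_self _ (1 : ℝ)]
    congr 1
    funext s
    have h1 : ∀ m : ℤ, W1.set.indicator (ex m) (s + 1) = W2.set.indicator (ex m) s := by
      intro m
      by_cases hs : s ∈ W2.set
      · have hs' : s + 1 ∈ W1.set := ⟨by linarith [hs.1], by linarith [hs.2]⟩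
        rw [indicator_of_mem hs, indicator_of_mem hs', ex_add_one]
      · have hs' : s + 1 ∉ W1.set := by
          intro h
          exact hs ⟨by linarith [h.1], by linarith [h.2]⟩
        rw [indicator_of_notMem hs, indicator_of_notMem hs']
    rw [h1, h1]
  · rw [inner_LL_zero, inner_LL_zero]
    · intro t h1 h2
      apply hab
      apply Subtype.ext
      refine AA_unique a.2 b.2 (mul_div_eq (t := t) (AA_ne a.2) (AA_ne b.2)) ?_ ?_
      · exact ⟨by linarith [h1.1], h1.2⟩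
      · exact ⟨by linarith [h2.1], h2.2⟩
    · intro t h1 h2
      apply hab
      apply Subtype.ext
      have h3 : (a : ℝ) * (t / a / 2) = b * (t / b / 2) := by
        have := mul_div_eq (t := t) (AA_ne a.2) (AA_ne b.2)
        linarith
      refine AA_unique a.2 b.2 h3 ?_ ?_
      · have h4 : 5 / 2 < t / (a : ℝ) := h1.1
        have h5 : t / (a : ℝ) ≤ 3 := h1.2
        exact ⟨by linarith, by linarith⟩
      · have h4 : 5 / 2 < t / (b : ℝ) := h2.1
        have h5 : t / (b : ℝ) ≤ 3 := h2.2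
        exact ⟨by linarith, by linarith⟩

lemma perp1 (i j : ℤ × AA) : inner ℂ (LL W2 i) (LL W0 j - LL W2 j) = 0 := by
  rw [LL_W0]
  apply inner_LL_zero
  intro t h1 h2
  have h3 : 3 / 2 < t / (i.2 : ℝ) := h1.1
  have h4 : t / (i.2 : ℝ) ≤ 2 := h1.2
  have h5 : 1 < t / (j.2 : ℝ) := h2.1
  have h6 : t / (j.2 : ℝ) ≤ 3 / 2 := h2.2
  have h7 := AA_unique i.2.2 j.2.2 (mul_div_eq (t := t) (AA_ne i.2.2) (AA_ne j.2.2))
    ⟨by linarith, h4⟩ ⟨h5, by linarith⟩
  rw [h7] at h3
  linarith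

lemma perp2 (i j : ℤ × AA) : inner ℂ (LL W2 i) (LL W1 j) = 0 := by
  apply inner_LL_zero
  intro t h1 h2
  have h3 : 3 / 2 < t / (i.2 : ℝ) := h1.1
  have h4 : t / (i.2 : ℝ) ≤ 2 := h1.2
  have h5 : 5 / 2 < t / (j.2 : ℝ) := h2.1
  have h6 : t / (j.2 : ℝ) ≤ 3 := h2.2
  have h8 : (i.2 : ℝ) * (t / i.2) = (2 * (j.2 : ℝ)) * (t / j.2 / 2) := by
    have := mul_div_eq (t := t) (AA_ne i.2.2) (AA_ne j.2.2)
    linarith
  have h7 := AA_unique i.2.2 (AA_two j.2.2) h8 ⟨by linarith, h4⟩ ⟨by linarith, by linarith⟩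
  rw [h7] at h3
  have h9 : t / (2 * (j.2 : ℝ)) = t / j.2 / 2 := by
    rw [mul_comm, div_div]
  rw [h9] at h3
  linarith

/-- the bounds of a Riesz sequence for the system on the Fourier side -/
theorem bounds (s : Finset (ℤ × AA)) (c : ℤ × AA → ℂ) :
    (1 / 4 : ℝ) * ∑ i ∈ s, ‖c i‖ ^ 2 ≤ ‖∑ i ∈ s, c i • LL WO i‖ ^ 2 ∧
      ‖∑ i ∈ s, c i • LL WO i‖ ^ 2 ≤ 4 * ∑ i ∈ s, ‖c i‖ ^ 2 := by
  have := riesz_bounds (LL W0) (LL W1) (LL W2) ortho gram_eq perp1 perp2 s c
  simpa only [LL_WO] using this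

end Pool.Agent.X196.RW
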